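import Pool.Agent.H59.L.S8.TH867.SB.Exp

/-!
Hermite interpolation with denominators and the polynomial Schwarz lemma (helper867).
-/

set_option autoImplicit false

namespace Pool.Agent.TH867.SB

open Finset Polynomial
open Pool.Agent.TH907.Bak (toZModPow_eq_zero_iff dvd_of_natCast_mul)

/-- node polynomial -/
noncomputable def WW (R : Type*) [CommRing R] (Z : ℕ) : R[X] :=
  ∏ z ∈ range Z, (X - C (z : R))

/-- the product over the other nodes -/
noncomputable def WO (R : Type*) [CommRing R] (Z z : ℕ) : R[X] :=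
  ∏ w ∈ (range Z).erase z, (X - C (w : R))

theorem WW_monic (R : Type*) [CommRing R] (Z : ℕ) : (WW R Z).Monic := by
  rw [WW]
  exact monic_prod_of_monic _ _ fun z _ => (monic_X_sub_C _)

theorem WW_natDegree (R : Type*) [CommRing R] [Nontrivial R] (Z : ℕ) :
    (WW R Z).natDegree = Z := by
  rw [WW, natDegree_prod_of_monic]
  · rw [Finset.sum_congr rfl fun (z : ℕ) _ => natDegree_X_sub_C ((z : ℕ) : R)]
    simp
  · exact fun z _ => (monic_X_sub_C _)

theorem WW_map {R S : Type*} [CommRing R] [CommRing S] (f : R →+* S) (Z : ℕ) :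
    (WW R Z).map f = WW S Z := by
  rw [WW, WW, Polynomial.map_prod]
  apply Finset.prod_congr rfl
  intro z _
  simp

theorem WW_eq (R : Type*) [CommRing R] {Z z : ℕ} (hz : z < Z) :
    WW R Z = (X - C (z : R)) * WO R Z z := by
  rw [WW, WO]
  exact (Finset.mul_prod_erase (range Z) (fun w : ℕ => (X - C (w : R))) (mem_range.2 hz)).symm

theorem WO_eval (R : Type*) [CommRing R] (Z z : ℕ) :
    (WO R Z z).eval (z : R) = ((∏ w ∈ (range Z).erase z, ((z : ℤ) - w) : ℤ) : R) := by
  rw [WO, Polynomial.eval_prod]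
  push_cast
  apply Finset.prod_congr rfl
  intro w _
  simp

theorem WO_eval_ne (R : Type*) [CommRing R] {Z z w : ℕ} (hw : w < Z) (hwz : w ≠ z) :
    (WO R Z z).eval (w : R) = 0 := by
  rw [WO, Polynomial.eval_prod]
  apply Finset.prod_eq_zero (Finset.mem_erase.2 ⟨hwz, mem_range.2 hw⟩)
  simp

theorem WO_degree (R : Type*) [CommRing R] [Nontrivial R] {Z z : ℕ} (hz : z < Z) :
    (WO R Z z).degree < Z := by
  have hm : (WO R Z z).Monic := monic_prod_of_monic _ _ fun z _ => (monic_X_sub_C _)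
  rw [degree_eq_natDegree hm.ne_zero]
  have h1 : (WO R Z z).natDegree = Z - 1 := by
    rw [WO, natDegree_prod_of_monic]
    · rw [Finset.sum_congr rfl fun (z : ℕ) _ => natDegree_X_sub_C ((z : ℕ) : R), Finset.sum_const,
        Finset.card_erase_of_mem (mem_range.2 hz), card_range]
      simp
    · exact fun z _ => (monic_X_sub_C _)
  rw [h1]
  exact_mod_cast (by omega : Z - 1 < Z)

theorem prod_erase_eq (z m : ℕ) : ∏ w ∈ (range (z + 1 + m)).erase z, ((z : ℤ) - w) =
    (z.factorial : ℤ) * ((-1) ^ m * m.factorial) := by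
  classical
  have h1 : ∏ w ∈ (range (z + 1 + m)).erase z, ((z : ℤ) - w) =
      ∏ w ∈ (range (z + 1 + m)).erase z, (if w = z then (1 : ℤ) else (z : ℤ) - w) := by
    apply Finset.prod_congr rfl
    intro w hw
    rw [if_neg (Finset.ne_of_mem_erase hw)]
  rw [h1, Finset.prod_erase _ (by simp), Finset.prod_range_add, Finset.prod_range_succ, if_pos rfl,
    mul_one]
  congr 1
  · have h2 : ∏ w ∈ range z, (if w = z then (1 : ℤ) else (z : ℤ) - w) =
        ((∏ w ∈ range z, (z - w) : ℕ) : ℤ) := by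
      push_cast
      apply Finset.prod_congr rfl
      intro w hw
      rw [mem_range] at hw
      rw [if_neg (by omega), Nat.cast_sub hw.le]
    rw [h2]
    congr 1
    rw [← Finset.prod_range_reflect, ← Finset.prod_range_add_one_eq_factorial]
    apply Finset.prod_congr rfl
    intro w hw
    rw [mem_range] at hw
    omega
  · have h2 : ∏ x ∈ range m, (if z + 1 + x = z then (1 : ℤ) else (z : ℤ) - ((z + 1 + x : ℕ) : ℤ)) =
        ∏ x ∈ range m, ((-1 : ℤ) * ((x + 1 : ℕ) : ℤ)) := by
      apply Finset.prod_congr rfl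
      intro x _
      rw [if_neg (by omega)]
      push_cast
      ring
    rw [h2, Finset.prod_mul_distrib, Finset.prod_const, card_range, ← Nat.cast_prod,
      Finset.prod_range_add_one_eq_factorial]

theorem node_dvd {Z z : ℕ} (hz : z < Z) : ∃ u : ℤ,
    u * ∏ w ∈ (range Z).erase z, ((z : ℤ) - w) = ((Z - 1).factorial : ℤ) := by
  obtain ⟨m, rfl⟩ : ∃ m, Z = z + 1 + m := ⟨Z - 1 - z, by omega⟩
  rw [prod_erase_eq]
  refine ⟨(-1) ^ m * ((z + m).choose z : ℤ), ?_⟩
  have h1 : (z + 1 + m - 1) = z + m := by omega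
  rw [h1]
  have h2 := Nat.add_choose_mul_factorial_mul_factorial z m
  rw [← Nat.choose_symm_add] at h2
  have h3 : (((z + m).choose z * z.factorial * m.factorial : ℕ) : ℤ) = ((z + m).factorial : ℤ) := by
    rw [h2]
  push_cast at h3
  rw [← h3]
  have h4 : ((-1 : ℤ) ^ m) * (-1) ^ m = 1 := by rw [← mul_pow]; norm_num
  linear_combination ((z + m).choose z : ℤ) * z.factorial * m.factorial * h4

variable {p : ℕ} [hp : Fact p.Prime]

/-- Lagrange interpolation with denominators. -/
theorem lagr {g : ℤ_[p][X]} {Z E : ℕ} (hg : g.degree < Z)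
    (hz : ∀ z < Z, (p : ℤ_[p]) ^ E ∣ g.eval (z : ℤ_[p])) :
    ∀ k, (p : ℤ_[p]) ^ (E - Z) ∣ g.coeff k := by
  classical
  choose! u hu using fun z (hz : z < Z) => node_dvd hz
  have h1 : C (((Z - 1).factorial : ℕ) : ℤ_[p]) * g =
      ∑ z ∈ range Z, C ((u z : ℤ_[p]) * g.eval (z : ℤ_[p])) * WO ℤ_[p] Z z := by
    apply Polynomial.eq_of_degrees_lt_of_eval_index_eq (s := range Z)
      (v := fun z : ℕ => (z : ℤ_[p]))
    · intro a _ b _ hab
      exact Nat.cast_injective hab
    · rw [card_range]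
      refine lt_of_le_of_lt (degree_mul_le _ _) ?_
      refine lt_of_le_of_lt (add_le_add degree_C_le le_rfl) ?_
      rw [zero_add]
      exact hg
    · rw [card_range]
      rw [← Polynomial.mem_degreeLT]
      refine Submodule.sum_mem _ fun z hz' => ?_
      rw [Polynomial.mem_degreeLT]
      refine lt_of_le_of_lt (degree_mul_le _ _) ?_
      refine lt_of_le_of_lt (add_le_add degree_C_le le_rfl) ?_
      rw [zero_add]
      exact WO_degree _ (mem_range.1 hz')
    · intro w hw
      have hw' := mem_range.1 hw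
      rw [Polynomial.eval_mul, Polynomial.eval_C, Polynomial.eval_finsetSum,
        Finset.sum_eq_single w]
      · rw [Polynomial.eval_mul, Polynomial.eval_C, WO_eval]
        have h2 := congrArg (fun t : ℤ => (t : ℤ_[p])) (hu w hw')
        simp only [Int.cast_mul] at h2
        rw [Int.cast_natCast] at h2
        rw [← h2]
        ring
      · intro z _ hzw
        rw [Polynomial.eval_mul, WO_eval_ne _ hw' (Ne.symm hzw), mul_zero]
      · intro h
        exact absurd hw h
  intro k
  have h2 : (p : ℤ_[p]) ^ E ∣ (((Z - 1).factorial : ℕ) : ℤ_[p]) * g.coeff k := by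
    rw [← Polynomial.coeff_C_mul, h1, Polynomial.finsetSum_coeff]
    apply Finset.dvd_sum
    intro z hz'
    rw [Polynomial.coeff_C_mul]
    exact Dvd.dvd.mul_right (Dvd.dvd.mul_left (hz z (mem_range.1 hz')) _) _
  refine dvd_of_natCast_mul (Nat.factorial_ne_zero _) ?_ h2
  refine (val_factorial_le _).trans (by omega)

/-- Hermite interpolation with denominators. -/
theorem herm (F : ℤ_[p][X]) (Z E : ℕ) : ∀ T : ℕ,
    (∀ z < Z, (X - C (z : ZMod (p ^ E))) ^ T ∣ F.map (PadicInt.toZModPow E)) →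
    ∃ G R : ℤ_[p][X], F = WW ℤ_[p] Z ^ T * G + R ∧
      C ((p : ℤ_[p]) ^ (E - T ^ 2 * Z)) ∣ R := by
  intro T
  induction T with
  | zero => intro _; exact ⟨F, 0, by simp, by simp⟩
  | succ T ih =>
    intro h
    obtain ⟨G, R, hF, hR⟩ := ih fun z hz => (pow_dvd_pow _ (by omega)).trans (h z hz)
    obtain ⟨E1, hE1⟩ : ∃ E1, E1 = E - T ^ 2 * Z := ⟨_, rfl⟩
    rw [← hE1] at hR
    have hE1E : E1 ≤ E := by omega
    have hRmap : R.map (PadicInt.toZModPow E1) = 0 := by
      rw [Polynomial.C_dvd_iff_dvd_coeff] at hR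
      ext k
      rw [Polynomial.coeff_map, Polynomial.coeff_zero, toZModPow_eq_zero_iff]
      exact hR k
    have hGz : ∀ z < Z, (p : ℤ_[p]) ^ (E1 - T * Z) ∣ G.eval (z : ℤ_[p]) := by
      intro z hz
      have h1 : (X - C (z : ZMod (p ^ E1))) ^ (T + 1) ∣ F.map (PadicInt.toZModPow E1) := by
        have h2 := Polynomial.map_dvd (ZMod.castHom (pow_dvd_pow p hE1E) (ZMod (p ^ E1))) (h z hz)
        rw [Polynomial.map_map, PadicInt.zmod_cast_comp_toZModPow _ _ hE1E] at h2
        simpa using h2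
      rw [hF, Polynomial.map_add, hRmap, add_zero, Polynomial.map_mul, Polynomial.map_pow, WW_map,
        WW_eq _ hz, mul_pow, pow_succ, mul_assoc] at h1
      have h3 : (X - C (z : ZMod (p ^ E1))) ∣
          WO (ZMod (p ^ E1)) Z z ^ T * G.map (PadicInt.toZModPow E1) := by
        obtain ⟨c, hc⟩ := h1
        refine ⟨c, ?_⟩
        rw [mul_assoc] at hc
        exact (((monic_X_sub_C _).pow T).isRegular).left hc
      rw [Polynomial.dvd_iff_isRoot, Polynomial.IsRoot.def, Polynomial.eval_mul,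
        Polynomial.eval_pow, WO_eval] at h3
      obtain ⟨u, hu⟩ := node_dvd hz
      have h4 : PadicInt.toZModPow E1
          (((((Z - 1).factorial) ^ T : ℕ) : ℤ_[p]) * G.eval (z : ℤ_[p])) = 0 := by
        have h5 : (G.map (PadicInt.toZModPow E1)).eval (z : ZMod (p ^ E1)) =
            PadicInt.toZModPow E1 (G.eval (z : ℤ_[p])) := by
          rw [Polynomial.eval_map, ← Polynomial.eval₂_at_apply]
          simp
        have h6 := congrArg (fun t : ℤ => (t : ZMod (p ^ E1))) hu
        simp only [Int.cast_mul] at h6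
        rw [Int.cast_natCast] at h6
        rw [h5] at h3
        rw [map_mul, map_natCast]
        push_cast
        rw [← h6, mul_pow, mul_assoc, h3, mul_zero]
      rw [toZModPow_eq_zero_iff] at h4
      refine dvd_of_natCast_mul (pow_ne_zero _ (Nat.factorial_ne_zero _)) ?_ h4
      rw [padicValNat.pow]
      exact Nat.mul_le_mul_left _ ((val_factorial_le _).trans (by omega))
    have hmon := WW_monic ℤ_[p] Z
    have hdiv := Polynomial.modByMonic_add_div G (WW ℤ_[p] Z)
    obtain ⟨g, hg⟩ : ∃ g, g = G %ₘ WW ℤ_[p] Z := ⟨_, rfl⟩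
    obtain ⟨G', hG'⟩ : ∃ G', G' = G /ₘ WW ℤ_[p] Z := ⟨_, rfl⟩
    rw [← hg, ← hG'] at hdiv
    have hgdeg : g.degree < Z := by
      rw [hg]
      refine lt_of_lt_of_le (Polynomial.degree_modByMonic_lt _ hmon) ?_
      rw [degree_eq_natDegree hmon.ne_zero, WW_natDegree]
    have hgz : ∀ z < Z, (p : ℤ_[p]) ^ (E1 - T * Z) ∣ g.eval (z : ℤ_[p]) := by
      intro z hz
      have h1 := hGz z hz
      rw [← hdiv, Polynomial.eval_add, Polynomial.eval_mul, WW_eq _ hz, Polynomial.eval_mul] at h1
      simpa using h1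
    have hgc := lagr hgdeg hgz
    refine ⟨G', WW ℤ_[p] Z ^ T * g + R, ?_, ?_⟩
    · rw [hF, ← hdiv]
      ring
    · have e1 : (T + 1) ^ 2 * Z = T ^ 2 * Z + T * Z + T * Z + Z := by ring
      apply dvd_add
      · apply Dvd.dvd.mul_left
        rw [Polynomial.C_dvd_iff_dvd_coeff]
        intro k
        exact (pow_dvd_pow _ (by omega)).trans (hgc k)
      · refine dvd_trans ?_ hR
        rw [C_dvd_iff_dvd_coeff]
        intro k
        rw [Polynomial.coeff_C]
        split_ifs
        · exact pow_dvd_pow _ (by omega)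
        · exact dvd_zero _

/-- Polynomial Schwarz lemma. -/
theorem schwarz {F : ℤ_[p][X]} {T Z E d : ℕ}
    (hF : ∀ k, (p : ℤ_[p]) ^ k ∣ F.coeff k)
    (hZ : ∀ z < Z, (X - C (z : ZMod (p ^ E))) ^ T ∣ F.map (PadicInt.toZModPow E))
    (hd : d ≤ T * Z) (hE : d + T ^ 2 * Z ≤ E) :
    ∀ k, (p : ℤ_[p]) ^ d ∣ F.coeff k := by
  rcases Nat.eq_zero_or_pos d with hd0 | hdpos
  · intro k; rw [hd0, pow_zero]; exact one_dvd _
  have hp1 : 1 < p := hp.out.one_lt
  have : Fact (1 < p ^ d) := ⟨Nat.one_lt_pow (by omega) hp1⟩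
  obtain ⟨G, R, hFG, hR⟩ := herm F Z E T hZ
  rw [Polynomial.C_dvd_iff_dvd_coeff] at hR
  have hR0 : R.map (PadicInt.toZModPow d) = 0 := by
    ext k
    rw [Polynomial.coeff_map, Polynomial.coeff_zero, toZModPow_eq_zero_iff]
    exact (pow_dvd_pow _ (by omega)).trans (hR k)
  have hdvd : WW (ZMod (p ^ d)) Z ^ T ∣ F.map (PadicInt.toZModPow d) := by
    rw [hFG, Polynomial.map_add, hR0, add_zero, Polynomial.map_mul, Polynomial.map_pow, WW_map]
    exact dvd_mul_right _ _
  have hmonT : (WW (ZMod (p ^ d)) Z ^ T).Monic := (WW_monic _ _).pow T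
  have hdeg : (F.map (PadicInt.toZModPow d)).degree < (WW (ZMod (p ^ d)) Z ^ T).degree := by
    rw [degree_eq_natDegree hmonT.ne_zero, (WW_monic _ _).natDegree_pow, WW_natDegree,
      degree_lt_iff_coeff_zero]
    intro m hm
    rw [Polynomial.coeff_map, toZModPow_eq_zero_iff]
    exact (pow_dvd_pow _ (by omega)).trans (hF m)
  have h0 : F.map (PadicInt.toZModPow d) = 0 := by
    by_contra hne
    exact hmonT.not_dvd_of_degree_lt hne hdeg hdvd
  intro k
  rw [← toZModPow_eq_zero_iff, ← Polynomial.coeff_map, h0, Polynomial.coeff_zero]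

end Pool.Agent.TH867.SB
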